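import Pool.Agent.Q12.LocComm

/-!
For every finite-dimensional algebra over the real or complex numbers the local derivations form a
Lie algebra under the commutator bracket.
-/

namespace Pool.Agent.Results.MP_066924_al.LocDerLie

open Q12

/-- `D` is a derivation of the algebra `A` with product `m x y`. -/
def IsDerivation {𝕜 A : Type*} [Field 𝕜] [AddCommGroup A] [Module 𝕜 A]
    (m : A →ₗ[𝕜] A →ₗ[𝕜] A) (D : Module.End 𝕜 A) : Prop :=
  ∀ x y : A, D (m x y) = m (D x) y + m x (D y)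

/-- `Δ` is a local derivation of the algebra `A` with product `m x y`. -/
def IsLocalDerivation {𝕜 A : Type*} [Field 𝕜] [AddCommGroup A] [Module 𝕜 A]
    (m : A →ₗ[𝕜] A →ₗ[𝕜] A) (Δ : Module.End 𝕜 A) : Prop :=
  ∀ x : A, ∃ D : Module.End 𝕜 A, IsDerivation m D ∧ Δ x = D x

theorem normed_case {𝕜 A : Type*} [RCLike 𝕜] [NormedAddCommGroup A] [NormedSpace 𝕜 A]
    [FiniteDimensional 𝕜 A] (m : A →ₗ[𝕜] A →ₗ[𝕜] A) {S T : Module.End 𝕜 A}
    (hS : IsLocalDerivation m S) (hT : IsLocalDerivation m T) :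
    IsLocalDerivation m (S * T - T * S) := by
  let _ : NormedSpace ℝ A := NormedSpace.restrictScalars ℝ 𝕜 A
  have _ : IsScalarTower ℝ 𝕜 A := IsScalarTower.restrictScalars ℝ 𝕜 A
  have _ : FiniteDimensional ℝ A := FiniteDimensional.trans ℝ 𝕜 A
  let g : Submodule ℝ (A →L[ℝ] A) :=
    { carrier := {D | ∃ D' : Module.End 𝕜 A, IsDerivation m D' ∧ ∀ x, D x = D' x}
      zero_mem' := ⟨0, fun x y => by simp, fun x => by simp⟩
      add_mem' := by
        rintro a b ⟨a', ha, ha'⟩ ⟨b', hb, hb'⟩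
        refine ⟨a' + b', fun x y => ?_, fun x => by simp [ha', hb']⟩
        simp only [LinearMap.add_apply, ha x y, hb x y, map_add]
        abel
      smul_mem' := by
        rintro c a ⟨a', ha, ha'⟩
        refine ⟨(c : 𝕜) • a', fun x y => ?_, fun x => ?_⟩
        · simp only [LinearMap.smul_apply, ha x y, map_smul, smul_add]
        · simp only [smul_apply, ha', LinearMap.smul_apply]
          exact (algebraMap_smul 𝕜 c (a' x)).symm }
  have hg : ∀ a ∈ g, ∀ b ∈ g, a * b - b * a ∈ g := by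
    rintro a ⟨a', ha, ha'⟩ b ⟨b', hb, hb'⟩
    refine ⟨a' * b' - b' * a', fun x y => ?_, fun x => by simp [ha', hb']⟩
    simp only [LinearMap.sub_apply, Module.End.mul_apply, ha x y, hb x y, map_add, map_sub,
      ha _ (b' y), ha (b' x) _, hb _ (a' y), hb (a' x) _]
    abel
  let S' : A →L[ℝ] A := LinearMap.toContinuousLinearMap (S.restrictScalars ℝ)
  let T' : A →L[ℝ] A := LinearMap.toContinuousLinearMap (T.restrictScalars ℝ)
  have hS' : ∀ x, S' x ∈ Loc.orb g x := by
    intro x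
    obtain ⟨D, hD, hD'⟩ := hS x
    exact Loc.mem_orb.2 ⟨LinearMap.toContinuousLinearMap (D.restrictScalars ℝ),
      ⟨D, hD, fun x => rfl⟩, hD'.symm⟩
  have hT' : ∀ x, T' x ∈ Loc.orb g x := by
    intro x
    obtain ⟨D, hD, hD'⟩ := hT x
    exact Loc.mem_orb.2 ⟨LinearMap.toContinuousLinearMap (D.restrictScalars ℝ),
      ⟨D, hD, fun x => rfl⟩, hD'.symm⟩
  intro x
  obtain ⟨D, ⟨D', hD, hD'⟩, hx⟩ := Loc.mem_orb.1 (Loc.local_comm g hg hS' hT' x)
  refine ⟨D', hD, ?_⟩
  rw [← hD' x, hx]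
  rfl

theorem comm {𝕜 A : Type*} [RCLike 𝕜] [AddCommGroup A] [Module 𝕜 A]
    [FiniteDimensional 𝕜 A] (m : A →ₗ[𝕜] A →ₗ[𝕜] A) {S T : Module.End 𝕜 A}
    (hS : IsLocalDerivation m S) (hT : IsLocalDerivation m T) :
    IsLocalDerivation m (S * T - T * S) := by
  let e := (Module.finBasis 𝕜 A).equivFun
  let _ : NormedAddCommGroup A := NormedAddCommGroup.induced A
    (Fin (Module.finrank 𝕜 A) → 𝕜) e.toLinearMap e.injective
  let _ : NormedSpace 𝕜 A := NormedSpace.induced 𝕜 A (Fin (Module.finrank 𝕜 A) → 𝕜) e.toLinearMap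
  exact normed_case m hS hT

/-- For every finite-dimensional algebra over the real or complex numbers, the local derivations
form a linear subspace of `End A` that is closed under the commutator bracket, that is, a Lie
algebra. -/
theorem result (𝕜 A : Type*) [RCLike 𝕜] [AddCommGroup A] [Module 𝕜 A] [FiniteDimensional 𝕜 A]
    (m : A →ₗ[𝕜] A →ₗ[𝕜] A) :
    ∃ L : Submodule 𝕜 (Module.End 𝕜 A), (∀ Δ : Module.End 𝕜 A, Δ ∈ L ↔ IsLocalDerivation m Δ) ∧
      ∀ S ∈ L, ∀ T ∈ L, S * T - T * S ∈ L :=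
  ⟨{ carrier := {Δ | IsLocalDerivation m Δ}
     zero_mem' := fun x => ⟨0, fun x y => by simp, rfl⟩
     add_mem' := by
       intro a b ha hb x
       obtain ⟨D, hD, hD'⟩ := ha x
       obtain ⟨E, hE, hE'⟩ := hb x
       refine ⟨D + E, fun x y => ?_, by simp [hD', hE']⟩
       simp only [LinearMap.add_apply, hD x y, hE x y, map_add]
       abel
     smul_mem' := by
       intro c a ha x
       obtain ⟨D, hD, hD'⟩ := ha x
       refine ⟨c • D, fun x y => ?_, by simp [hD']⟩
       simp only [LinearMap.smul_apply, hD x y, map_smul, smul_add] },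
    fun _ => Iff.rfl, fun _ hS _ hT => comm m hS hT⟩

end Pool.Agent.Results.MP_066924_al.LocDerLie
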